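import Pool.Agent.Work.MP_b3e27a_co.Defs

/-!
Euler Sombor index of chemical unicyclic graphs: sums over edges, weight inequalities.
-/

namespace Pool.Agent.Work.MP_b3e27a_co

open Finset

section
variable {V : Type*} [Fintype V] [DecidableEq V] (G : SimpleGraph V) [DecidableRel G.Adj]

theorem two_mul_sum_edges (f : Sym2 V → ℝ) :
    2 * ∑ e ∈ G.edgeFinset, f e = ∑ v, ∑ w ∈ G.neighborFinset v, f s(v, w) := by
  classical
  have h1 : ∑ v, ∑ w ∈ G.neighborFinset v, f s(v, w)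
      = ∑ p ∈ (univ : Finset (V × V)).filter (fun p => G.Adj p.1 p.2), f s(p.1, p.2) := by
    rw [Finset.sum_filter, ← Finset.univ_product_univ, Finset.sum_product]
    refine Finset.sum_congr rfl fun v _ => ?_
    rw [← Finset.sum_filter]
    refine Finset.sum_congr ?_ fun _ _ => rfl
    ext w; simp
  rw [h1]
  have hm : ∀ p ∈ (univ : Finset (V × V)).filter (fun p => G.Adj p.1 p.2),
      s(p.1, p.2) ∈ G.edgeFinset := by
    intro p hp; simpa using hp
  rw [← Finset.sum_fiberwise_of_maps_to hm, Finset.mul_sum]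
  refine Finset.sum_congr rfl fun e he => ?_
  induction e using Sym2.ind with
  | _ a b =>
    have hab : G.Adj a b := by simpa using he
    have hset : ((univ : Finset (V × V)).filter (fun p => G.Adj p.1 p.2)).filter
        (fun p => s(p.1, p.2) = s(a, b)) = {(a, b), (b, a)} := by
      ext ⟨x, y⟩
      simp only [mem_filter, mem_univ, true_and, Sym2.eq_iff, mem_insert, mem_singleton,
        Prod.mk.injEq]
      constructor
      · rintro ⟨_, h⟩; exact h
      · rintro (⟨rfl, rfl⟩ | ⟨rfl, rfl⟩)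
        · exact ⟨hab, Or.inl ⟨rfl, rfl⟩⟩
        · exact ⟨hab.symm, Or.inr ⟨rfl, rfl⟩⟩
    rw [hset, Finset.sum_pair]
    · rw [Sym2.eq_swap (a := b) (b := a)]; ring
    · intro h
      exact hab.ne (by simpa using congrArg Prod.fst h)

omit [DecidableEq V] in
theorem sum_nbr_left (h : V → ℝ) :
    ∑ v, ∑ _w ∈ G.neighborFinset v, h v = ∑ v, (G.degree v : ℝ) * h v := by
  refine Finset.sum_congr rfl fun v _ => ?_
  rw [Finset.sum_const, G.card_neighborFinset_eq_degree, nsmul_eq_mul]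

omit [DecidableEq V] in
theorem sum_nbr_swap (F : V → V → ℝ) :
    ∑ v, ∑ w ∈ G.neighborFinset v, F v w = ∑ v, ∑ w ∈ G.neighborFinset v, F w v := by
  rw [Finset.sum_comm' (s' := fun v => G.neighborFinset v) (t' := univ)]
  intro x y
  simp [G.adj_comm]

omit [DecidableEq V] in
theorem sum_nbr_right (h : V → ℝ) :
    ∑ v, ∑ w ∈ G.neighborFinset v, h w = ∑ v, (G.degree v : ℝ) * h v := by
  rw [sum_nbr_swap, sum_nbr_left]

end

open Classical in
theorem two_mul_EUS {V : Type*} [Fintype V] (G : SimpleGraph V) :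
    2 * EUS G = ∑ v, ∑ w ∈ G.neighborFinset v, wt (G.degree v) (G.degree w) := by
  unfold EUS
  rw [two_mul_sum_edges]
  simp only [Sym2.lift_mk]

/-! numerical bounds -/

theorem sqrt_bd {x lo hi : ℝ} (_h1 : 0 ≤ lo) (h2 : lo ^ 2 < x) (h3 : x < hi ^ 2) (h4 : 0 ≤ hi) :
    lo < √x ∧ √x < hi := by
  constructor
  · exact Real.lt_sqrt_of_sq_lt h2
  · exact (Real.sqrt_lt' (lt_of_le_of_ne h4 (by rintro rfl; nlinarith [sq_nonneg lo]))).2 h3

theorem s3 : (1.7320 : ℝ) < √3 ∧ √3 < 1.7321 := sqrt_bd (by norm_num) (by norm_num) (by norm_num) (by norm_num)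
theorem s7 : (2.6457 : ℝ) < √7 ∧ √7 < 2.6458 := sqrt_bd (by norm_num) (by norm_num) (by norm_num) (by norm_num)
theorem s13 : (3.6055 : ℝ) < √13 ∧ √13 < 3.6056 := sqrt_bd (by norm_num) (by norm_num) (by norm_num) (by norm_num)
theorem s19 : (4.3588 : ℝ) < √19 ∧ √19 < 4.3589 := sqrt_bd (by norm_num) (by norm_num) (by norm_num) (by norm_num)
theorem s21 : (4.5825 : ℝ) < √21 ∧ √21 < 4.5826 := sqrt_bd (by norm_num) (by norm_num) (by norm_num) (by norm_num)
theorem s37 : (6.0827 : ℝ) < √37 ∧ √37 < 6.0828 := sqrt_bd (by norm_num) (by norm_num) (by norm_num) (by norm_num)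

theorem s12 : √12 = 2 * √3 := by
  rw [show (12 : ℝ) = 2 ^ 2 * 3 by norm_num, Real.sqrt_mul (by norm_num), Real.sqrt_sq (by norm_num)]
theorem s28 : √28 = 2 * √7 := by
  rw [show (28 : ℝ) = 2 ^ 2 * 7 by norm_num, Real.sqrt_mul (by norm_num), Real.sqrt_sq (by norm_num)]
theorem s27 : √27 = 3 * √3 := by
  rw [show (27 : ℝ) = 3 ^ 2 * 3 by norm_num, Real.sqrt_mul (by norm_num), Real.sqrt_sq (by norm_num)]
theorem s48 : √48 = 4 * √3 := by
  rw [show (48 : ℝ) = 4 ^ 2 * 3 by norm_num, Real.sqrt_mul (by norm_num), Real.sqrt_sq (by norm_num)]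

theorem w11 : wt 1 1 = √3 := by unfold wt; norm_num
theorem w12 : wt 1 2 = √7 := by unfold wt; norm_num
theorem w13 : wt 1 3 = √13 := by unfold wt; norm_num
theorem w14 : wt 1 4 = √21 := by unfold wt; norm_num
theorem w22 : wt 2 2 = 2 * √3 := by rw [← s12]; unfold wt; norm_num
theorem w23 : wt 2 3 = √19 := by unfold wt; norm_num
theorem w24 : wt 2 4 = 2 * √7 := by rw [← s28]; unfold wt; norm_num
theorem w33 : wt 3 3 = 3 * √3 := by rw [← s27]; unfold wt; norm_num
theorem w34 : wt 3 4 = √37 := by unfold wt; norm_num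
theorem w44 : wt 4 4 = 4 * √3 := by rw [← s48]; unfold wt; norm_num
theorem w21 : wt 2 1 = √7 := by rw [wt_comm, w12]
theorem w31 : wt 3 1 = √13 := by rw [wt_comm, w13]
theorem w41 : wt 4 1 = √21 := by rw [wt_comm, w14]
theorem w32 : wt 3 2 = √19 := by rw [wt_comm, w23]
theorem w42 : wt 4 2 = 2 * √7 := by rw [wt_comm, w24]
theorem w43 : wt 4 3 = √37 := by rw [wt_comm, w34]

/-- half of the potential of a vertex -/
noncomputable def pot (a : ℕ) : ℝ := wt a 4 - 2 * √3

/-- the key inequality -/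
theorem wt_lt (a b : ℕ) (ha : 1 ≤ a) (ha' : a ≤ 4) (hb : 1 ≤ b) (hb' : b ≤ 4)
    (h4 : a ≠ 4) (h4' : b ≠ 4) : wt a b < pot a + pot b := by
  unfold pot
  obtain ⟨a1, a2⟩ := s3; obtain ⟨b1, b2⟩ := s7; obtain ⟨c1, c2⟩ := s13
  obtain ⟨d1, d2⟩ := s19; obtain ⟨e1, e2⟩ := s21; obtain ⟨f1, f2⟩ := s37
  interval_cases a <;> interval_cases b <;>
    simp only [w11, w12, w13, w14, w22, w23, w24, w33, w34, w21, w31, w32, ne_eq,
      not_true_eq_false] at h4 h4' ⊢ <;>
    linarith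

theorem wt_eq (a b : ℕ) (h : a = 4 ∨ b = 4) : wt a b = pot a + pot b := by
  unfold pot
  rcases h with rfl | rfl
  · rw [w44, wt_comm 4 b]; ring
  · rw [w44]; ring

theorem wt_le (a b : ℕ) (ha : 1 ≤ a) (ha' : a ≤ 4) (hb : 1 ≤ b) (hb' : b ≤ 4) :
    wt a b ≤ pot a + pot b := by
  by_cases h : a = 4 ∨ b = 4
  · exact (wt_eq a b h).le
  · push Not at h
    exact (wt_lt a b ha ha' hb hb' h.1 h.2).le

end Pool.Agent.Work.MP_b3e27a_co
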