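import Pool.Agent.Work.MP_b3e27a_co.Basic

/-!
Euler Sombor index of chemical unicyclic graphs: the general upper bound in terms of the
numbers of vertices of given degree.
-/

namespace Pool.Agent.Work.MP_b3e27a_co

open Finset

open Classical in
/-- number of vertices of degree `i` -/
noncomputable def cnt {V : Type*} [Fintype V] (G : SimpleGraph V) (i : ℕ) : ℕ :=
  (univ.filter fun v => G.degree v = i).card

section
variable {V : Type*} [Fintype V] (G : SimpleGraph V)

open Classical in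
theorem sum_by_deg (h : ℕ → ℝ) (hd : ∀ v, 1 ≤ G.degree v ∧ G.degree v ≤ 4) :
    ∑ v, h (G.degree v) = cnt G 1 * h 1 + cnt G 2 * h 2 + cnt G 3 * h 3 + cnt G 4 * h 4 := by
  have hm : ∀ v ∈ (univ : Finset V), G.degree v ∈ Finset.Icc 1 4 := by
    intro v _; simpa using hd v
  rw [← Finset.sum_fiberwise_of_maps_to hm]
  have : ∀ j ∈ Finset.Icc 1 4, ∑ v ∈ univ.filter (fun v => G.degree v = j), h (G.degree v)
      = cnt G j * h j := by
    intro j _
    rw [Finset.sum_congr rfl (g := fun _ => h j)]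
    · rw [Finset.sum_const, nsmul_eq_mul]; rfl
    · intro v hv; rw [(mem_filter.1 hv).2]
  rw [Finset.sum_congr rfl this]
  rw [show (Finset.Icc 1 4 : Finset ℕ) = {1, 2, 3, 4} by decide]
  rw [Finset.sum_insert (by decide), Finset.sum_insert (by decide), Finset.sum_insert (by decide),
    Finset.sum_singleton]
  ring

variable {G}

open Classical in
theorem deg_bd (hG : ChemUnicyclic G) (hn : 3 ≤ Fintype.card V) (v : V) :
    1 ≤ G.degree v ∧ G.degree v ≤ 4 := by
  have : Nontrivial V := Fintype.one_lt_card_iff_nontrivial.1 (by omega)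
  exact ⟨hG.1.preconnected.degree_pos_of_nontrivial v, hG.2.2 v⟩

theorem cnt_sum (hG : ChemUnicyclic G) (hn : 3 ≤ Fintype.card V) :
    cnt G 1 + cnt G 2 + cnt G 3 + cnt G 4 = Fintype.card V := by
  classical
  have h := sum_by_deg G (fun _ => (1 : ℝ)) (fun v => deg_bd hG hn v)
  simp only [sum_const, card_univ, nsmul_eq_mul, mul_one] at h
  exact_mod_cast h.symm

theorem cnt_deg_sum (hG : ChemUnicyclic G) (hn : 3 ≤ Fintype.card V) :
    cnt G 1 + 2 * cnt G 2 + 3 * cnt G 3 + 4 * cnt G 4 = 2 * Fintype.card V := by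
  classical
  have h := sum_by_deg G (fun i => (i : ℝ)) (fun v => deg_bd hG hn v)
  have h2 := G.sum_degrees_eq_twice_card_edges
  rw [hG.2.1] at h2
  have h3 : ((∑ v, G.degree v : ℕ) : ℝ) = (2 * Fintype.card V : ℕ) := by exact_mod_cast h2
  push_cast at h3
  rw [h3] at h
  have : (cnt G 1 + 2 * cnt G 2 + 3 * cnt G 3 + 4 * cnt G 4 : ℝ) = 2 * Fintype.card V := by
    rw [h]; push_cast; ring
  exact_mod_cast this

open Classical in
theorem EUS_diff (hG : ChemUnicyclic G) (hn : 3 ≤ Fintype.card V) :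
    2 * (cnt G 1 * pot 1 + 2 * cnt G 2 * pot 2 + 3 * cnt G 3 * pot 3 + 4 * cnt G 4 * pot 4)
      - 2 * EUS G
      = ∑ v, ∑ w ∈ G.neighborFinset v,
        (pot (G.degree v) + pot (G.degree w) - wt (G.degree v) (G.degree w)) := by
  rw [two_mul_EUS]
  simp only [Finset.sum_sub_distrib, Finset.sum_add_distrib]
  rw [sum_nbr_left G (fun v => pot (G.degree v)), sum_nbr_right G (fun v => pot (G.degree v))]
  rw [sum_by_deg G (fun i => (i : ℝ) * pot i) (fun v => deg_bd hG hn v)]
  push_cast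
  ring

theorem EUS_le (hG : ChemUnicyclic G) (hn : 3 ≤ Fintype.card V) :
    EUS G ≤ cnt G 1 * pot 1 + 2 * cnt G 2 * pot 2 + 3 * cnt G 3 * pot 3 + 4 * cnt G 4 * pot 4 := by
  classical
  have h := EUS_diff hG hn
  have h2 : 0 ≤ ∑ v, ∑ w ∈ G.neighborFinset v,
        (pot (G.degree v) + pot (G.degree w) - wt (G.degree v) (G.degree w)) := by
    refine Finset.sum_nonneg fun v _ => Finset.sum_nonneg fun w _ => ?_
    have := wt_le (G.degree v) (G.degree w) (deg_bd hG hn v).1 (deg_bd hG hn v).2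
      (deg_bd hG hn w).1 (deg_bd hG hn w).2
    linarith
  linarith

open Classical in
theorem EUS_eq_iff (hG : ChemUnicyclic G) (hn : 3 ≤ Fintype.card V) :
    EUS G = cnt G 1 * pot 1 + 2 * cnt G 2 * pot 2 + 3 * cnt G 3 * pot 3 + 4 * cnt G 4 * pot 4 ↔
      ∀ v w, G.Adj v w → G.degree v = 4 ∨ G.degree w = 4 := by
  have h := EUS_diff hG hn
  have hnn : ∀ v w, 0 ≤ pot (G.degree v) + pot (G.degree w) - wt (G.degree v) (G.degree w) := by
    intro v w
    have := wt_le (G.degree v) (G.degree w) (deg_bd hG hn v).1 (deg_bd hG hn v).2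
      (deg_bd hG hn w).1 (deg_bd hG hn w).2
    linarith
  constructor
  · intro he v w hvw
    rw [he, sub_self] at h
    have h1 := (Finset.sum_eq_zero_iff_of_nonneg
      (fun v _ => Finset.sum_nonneg fun w _ => hnn v w)).1 h.symm v (mem_univ v)
    have h2 := (Finset.sum_eq_zero_iff_of_nonneg (fun w _ => hnn v w)).1 h1 w (by simpa using hvw)
    by_contra hcon
    push Not at hcon
    have := wt_lt (G.degree v) (G.degree w) (deg_bd hG hn v).1 (deg_bd hG hn v).2
      (deg_bd hG hn w).1 (deg_bd hG hn w).2 hcon.1 hcon.2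
    linarith
  · intro hh
    have h0 : ∑ v, ∑ w ∈ G.neighborFinset v,
        (pot (G.degree v) + pot (G.degree w) - wt (G.degree v) (G.degree w)) = 0 := by
      refine Finset.sum_eq_zero fun v _ => Finset.sum_eq_zero fun w hw => ?_
      rw [wt_eq _ _ (hh v w (by simpa using hw)), sub_self]
    rw [h0] at h
    linarith

/-- the constants of the general bound -/
noncomputable def cA : ℝ := (2 * √21 + 4 * √3) / 3
noncomputable def cB : ℝ := (16 / 3) * √3 + (2 / 3) * √21 - 4 * √7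
noncomputable def cC : ℝ := (32 / 3) * √3 + √21 / 3 - 3 * √37

theorem cB_pos : 1.7 < cB := by
  unfold cB
  obtain ⟨a1, a2⟩ := s3; obtain ⟨b1, b2⟩ := s7; obtain ⟨e1, e2⟩ := s21
  linarith

theorem cC_gt : cB + 0.04 < cC := by
  unfold cB cC
  obtain ⟨a1, a2⟩ := s3; obtain ⟨b1, b2⟩ := s7; obtain ⟨e1, e2⟩ := s21; obtain ⟨f1, f2⟩ := s37
  linarith

theorem cC_lt : cC < 1.76 := by
  unfold cC
  obtain ⟨a1, a2⟩ := s3; obtain ⟨e1, e2⟩ := s21; obtain ⟨f1, f2⟩ := s37
  linarith

theorem bound_form (hG : ChemUnicyclic G) (hn : 3 ≤ Fintype.card V) :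
    cnt G 1 * pot 1 + 2 * cnt G 2 * pot 2 + 3 * cnt G 3 * pot 3 + 4 * cnt G 4 * pot 4
      = cA * Fintype.card V - cB * cnt G 2 - cC * cnt G 3 := by
  have h1 := cnt_sum hG hn
  have h2 := cnt_deg_sum hG hn
  have h1' : (cnt G 1 + cnt G 2 + cnt G 3 + cnt G 4 : ℝ) = Fintype.card V := by exact_mod_cast h1
  have h2' : (cnt G 1 + 2 * cnt G 2 + 3 * cnt G 3 + 4 * cnt G 4 : ℝ) = 2 * Fintype.card V := by
    exact_mod_cast h2
  unfold pot cA cB cC
  rw [w14, w24, w34, w44]
  have h3 : (cnt G 1 : ℝ) = cnt G 3 + 2 * cnt G 4 := by linarith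
  have h4 : (Fintype.card V : ℝ) = cnt G 2 + 2 * cnt G 3 + 3 * cnt G 4 := by linarith
  rw [h4, h3]
  ring

/-- the relation between `n` and the degree counts -/
theorem cnt_rel (hG : ChemUnicyclic G) (hn : 3 ≤ Fintype.card V) :
    cnt G 2 + 2 * cnt G 3 + 3 * cnt G 4 = Fintype.card V ∧ cnt G 1 = cnt G 3 + 2 * cnt G 4 := by
  have h1 := cnt_sum hG hn
  have h2 := cnt_deg_sum hG hn
  omega

end

end Pool.Agent.Work.MP_b3e27a_co
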