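import Pool.Agent.Work.MP_b3e27a_co.Bound

/-!
Euler Sombor index of chemical unicyclic graphs: the non-pendant vertices, and graphs which are a
triangle with pendant vertices.
-/

namespace Pool.Agent.Work.MP_b3e27a_co

open Finset

section
variable {V : Type*} [Fintype V] {G : SimpleGraph V}

omit [Fintype V] in
theorem walk_closed (S : Set V) (hS : ∀ a b, a ∈ S → G.Adj a b → b ∈ S) {a b : V}
    (p : G.Walk a b) : a ∈ S → b ∈ S := by
  induction p with
  | nil => exact id
  | cons h _ ih => exact fun ha => ih (hS _ _ ha h)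

open Classical in
theorem leaf_nbr (hc : G.Connected) (hn : 3 ≤ Fintype.card V) {v w : V} (hv : G.degree v = 1)
    (hvw : G.Adj v w) : G.degree w ≠ 1 := by
  intro hw
  have hNv : ∀ u, G.Adj v u → u = w := by
    intro u hu
    rw [← G.card_neighborFinset_eq_degree, Finset.card_eq_one] at hv
    obtain ⟨a, ha⟩ := hv
    have h1 : u ∈ G.neighborFinset v := by simpa using hu
    have h2 : w ∈ G.neighborFinset v := by simpa using hvw
    rw [ha, mem_singleton] at h1 h2
    rw [h1, h2]
  have hNw : ∀ u, G.Adj w u → u = v := by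
    intro u hu
    rw [← G.card_neighborFinset_eq_degree, Finset.card_eq_one] at hw
    obtain ⟨a, ha⟩ := hw
    have h1 : u ∈ G.neighborFinset w := by simpa using hu
    have h2 : v ∈ G.neighborFinset w := by simpa using hvw.symm
    rw [ha, mem_singleton] at h1 h2
    rw [h1, h2]
  obtain ⟨u, hu⟩ : ∃ u, u ∉ ({v, w} : Finset V) := by
    by_contra hcon
    push Not at hcon
    have : (univ : Finset V) ⊆ {v, w} := fun u _ => hcon u
    have := Finset.card_le_card this
    rw [card_univ] at this
    have h2 : ({v, w} : Finset V).card ≤ 2 := Finset.card_le_two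
    omega
  obtain ⟨p⟩ := hc.preconnected v u
  have := walk_closed (G := G) ({v, w} : Set V) (by
    intro a b ha hab
    simp only [Set.mem_insert_iff, Set.mem_singleton_iff] at ha ⊢
    rcases ha with rfl | rfl
    · exact Or.inr (hNv _ hab)
    · exact Or.inl (hNw _ hab)) p (by simp)
  simp at this hu
  tauto

open Classical in
/-- the set of non-pendant vertices -/
noncomputable def core (G : SimpleGraph V) : Finset V := univ.filter fun v => G.degree v ≠ 1

open Classical in
theorem core_card (hG : ChemUnicyclic G) (hn : 3 ≤ Fintype.card V) :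
    (core G).card = cnt G 2 + cnt G 3 + cnt G 4 := by
  have h1 := cnt_sum hG hn
  have h2 : (core G).card + cnt G 1 = Fintype.card V := by
    unfold core cnt
    rw [add_comm, Finset.card_filter_add_card_filter_not (s := (univ : Finset V))
      (fun v => G.degree v = 1)]
    exact card_univ
  omega

open Classical in
theorem core_sum (hG : ChemUnicyclic G) (hn : 3 ≤ Fintype.card V) :
    ∑ v ∈ core G, ((G.neighborFinset v).filter fun w => w ∈ core G).card
      = 2 * (core G).card := by
  set κ : V → ℝ := fun v => if v ∈ core G then 1 else 0 with hκ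
  have hprod : ∀ v, ∀ w ∈ G.neighborFinset v, κ v * κ w = κ v + κ w - 1 := by
    intro v w hw
    have hw' : G.Adj v w := by simpa using hw
    have : v ∈ core G ∨ w ∈ core G := by
      by_contra hcon
      push Not at hcon
      simp only [core, mem_filter, mem_univ, true_and, ne_eq, not_not] at hcon
      exact leaf_nbr hG.1 hn hcon.1 hw' hcon.2
    simp only [hκ]
    by_cases h1 : v ∈ core G <;> by_cases h2 : w ∈ core G <;> simp [h1, h2]
    tauto
  have h1 : ∑ v, ∑ w ∈ G.neighborFinset v, κ v * κ w
      = 2 * ∑ v, (G.degree v : ℝ) * κ v - ∑ v, (G.degree v : ℝ) := by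
    rw [Finset.sum_congr rfl fun v _ => Finset.sum_congr rfl (hprod v)]
    simp only [Finset.sum_sub_distrib, Finset.sum_add_distrib]
    rw [sum_nbr_left G κ, sum_nbr_right G κ, sum_nbr_left G (fun _ => (1 : ℝ))]
    simp only [mul_one]
    ring
  have h2 : ∑ v, (G.degree v : ℝ) = 2 * Fintype.card V := by
    have h2 := G.sum_degrees_eq_twice_card_edges
    rw [hG.2.1] at h2
    have h3 : ((∑ v, G.degree v : ℕ) : ℝ) = (2 * Fintype.card V : ℕ) := by exact_mod_cast h2
    push_cast at h3
    exact h3
  have h3 : ∑ v, (G.degree v : ℝ) * κ v = 2 * Fintype.card V - cnt G 1 := by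
    have : ∑ v, (G.degree v : ℝ) * κ v = ∑ v, (G.degree v : ℝ)
        - ∑ v, (if G.degree v = 1 then (1 : ℝ) else 0) := by
      rw [← Finset.sum_sub_distrib]
      refine Finset.sum_congr rfl fun v _ => ?_
      simp only [hκ, core, mem_filter, mem_univ, true_and]
      by_cases h : G.degree v = 1 <;> simp [h]
    rw [this, h2, Finset.sum_boole]
    rfl
  have h4 : (∑ v ∈ core G, ((G.neighborFinset v).filter fun w => w ∈ core G).card : ℝ)
      = ∑ v, ∑ w ∈ G.neighborFinset v, κ v * κ w := by
    rw [← Finset.sum_filter_add_sum_filter_not univ (fun v => v ∈ core G)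
      (fun v => ∑ w ∈ G.neighborFinset v, κ v * κ w)]
    rw [Finset.sum_eq_zero (s := univ.filter fun v => v ∉ core G)]
    · rw [add_zero]
      have : univ.filter (fun v => v ∈ core G) = core G := by ext; simp
      rw [this]
      refine Finset.sum_congr rfl fun v hv => ?_
      simp only [hκ, hv, if_true, one_mul]
      rw [Finset.sum_boole]
    · intro v hv
      refine Finset.sum_eq_zero fun w _ => ?_
      simp only [mem_filter, mem_univ, true_and] at hv
      simp [hκ, hv]
  have h5 : (2 * (core G).card : ℝ) = 2 * (2 * Fintype.card V - cnt G 1) - 2 * Fintype.card V := by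
    have e1 := core_card hG hn
    have e2 := cnt_sum hG hn
    have e3 : (core G).card + cnt G 1 = Fintype.card V := by omega
    have e4 : ((core G).card + cnt G 1 : ℝ) = Fintype.card V := by exact_mod_cast e3
    linarith
  have h6 : (∑ v ∈ core G, ((G.neighborFinset v).filter fun w => w ∈ core G).card : ℝ)
      = 2 * (core G).card := by
    rw [h4, h1, h3, h2, h5]
  exact_mod_cast h6

open Classical in
theorem core_nbr_le (v : V) (hv : v ∈ core G) :
    ((G.neighborFinset v).filter fun w => w ∈ core G).card ≤ (core G).card - 1 := by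
  rw [← Finset.card_erase_of_mem hv]
  refine Finset.card_le_card fun w hw => ?_
  simp only [mem_filter, SimpleGraph.mem_neighborFinset] at hw
  exact Finset.mem_erase.2 ⟨hw.1.ne', hw.2⟩

open Classical in
theorem core_nonempty (hG : ChemUnicyclic G) (hn : 3 ≤ Fintype.card V) : 0 < (core G).card := by
  rw [Finset.card_pos]
  by_contra hcon
  rw [Finset.not_nonempty_iff_eq_empty] at hcon
  have hall : ∀ v, G.degree v = 1 := by
    intro v
    by_contra h
    have : v ∈ core G := by simp [core, h]
    rw [hcon] at this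
    simp at this
  have : Nontrivial V := Fintype.one_lt_card_iff_nontrivial.1 (by omega)
  obtain ⟨v⟩ := hG.1.nonempty
  have h1 := hG.1.preconnected.degree_pos_of_nontrivial v
  obtain ⟨w, hw⟩ := (G.degree_pos_iff_exists_adj v).1 h1
  exact leaf_nbr hG.1 hn (hall v) hw (hall w)

theorem core_ge (hG : ChemUnicyclic G) (hn : 3 ≤ Fintype.card V) : 3 ≤ (core G).card := by
  classical
  have h1 := core_sum hG hn
  have h2 : ∑ v ∈ core G, ((G.neighborFinset v).filter fun w => w ∈ core G).card
      ≤ ∑ _v ∈ core G, ((core G).card - 1) := Finset.sum_le_sum fun v hv => core_nbr_le v hv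
  rw [Finset.sum_const, smul_eq_mul] at h2
  have h3 := core_nonempty hG hn
  rw [h1] at h2
  by_contra hcon
  push Not at hcon
  interval_cases h : (core G).card
  · omega
  · omega

open Classical in
/-- if exactly three vertices are non-pendant, they form a triangle -/
theorem core_tri (hG : ChemUnicyclic G) (hn : 3 ≤ Fintype.card V) (hk : (core G).card = 3) :
    ∀ v ∈ core G, ∀ w ∈ core G, v ≠ w → G.Adj v w := by
  have h1 := core_sum hG hn
  have h2 : ∀ v ∈ core G, ((G.neighborFinset v).filter fun w => w ∈ core G).card ≤ 2 := by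
    intro v hv
    have := core_nbr_le v hv
    omega
  have h3 : ∀ v ∈ core G, ((G.neighborFinset v).filter fun w => w ∈ core G).card = 2 := by
    have h4 : ∑ v ∈ core G, ((G.neighborFinset v).filter fun w => w ∈ core G).card
        = ∑ _v ∈ core G, 2 := by
      rw [h1, Finset.sum_const, smul_eq_mul]; omega
    exact (Finset.sum_eq_sum_iff_of_le h2).1 h4
  intro v hv w hw hvw
  have h5 : (G.neighborFinset v).filter (fun w => w ∈ core G) = (core G).erase v := by
    refine Finset.eq_of_subset_of_card_le ?_ ?_
    · intro u hu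
      simp only [mem_filter, SimpleGraph.mem_neighborFinset] at hu
      exact Finset.mem_erase.2 ⟨hu.1.ne', hu.2⟩
    · rw [Finset.card_erase_of_mem hv, h3 v hv]; omega
  have h6 : w ∈ (core G).erase v := Finset.mem_erase.2 ⟨hvw.symm, hw⟩
  rw [← h5] at h6
  simpa using (mem_filter.1 h6).1

open Classical in
theorem tri_EUS (hc : G.Connected) (hn : 3 ≤ Fintype.card V) {a b c : ℕ} (ha : a ≠ 1) (hb : b ≠ 1)
    (hc' : c ≠ 1) (h : IsTri G a b c) :
    EUS G = wt a b + wt b c + wt a c + (a - 2) * wt 1 a + (b - 2) * wt 1 b + (c - 2) * wt 1 c := by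
  obtain ⟨x, y, z, hxy, hyz, hxz, hx, hy, hz, hleaf⟩ := h
  have nxy := hxy.ne
  have nyz := hyz.ne
  have nxz := hxz.ne
  set ψ : V → ℝ := fun v => if G.degree v = 1 then 0 else wt 1 (G.degree v) with hψ
  set δ : V → V → ℝ := fun v w => if G.degree v = 1 ∨ G.degree w = 1 then 0
    else wt (G.degree v) (G.degree w) - ψ v - ψ w with hδ
  have key : ∀ v, ∀ w ∈ G.neighborFinset v,
      wt (G.degree v) (G.degree w) = ψ v + ψ w + δ v w := by
    intro v w hw
    have hw' : G.Adj v w := by simpa using hw
    have hnot := fun h1 : G.degree v = 1 => leaf_nbr hc hn h1 hw'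
    simp only [hψ, hδ]
    by_cases h1 : G.degree v = 1
    · have h2 := hnot h1
      simp [h1, h2]
    · by_cases h2 : G.degree w = 1
      · simp [h1, h2, wt_comm]
      · simp [h1, h2]
  have h2 : 2 * EUS G = 2 * ∑ v, (G.degree v : ℝ) * ψ v + ∑ v, ∑ w ∈ G.neighborFinset v, δ v w := by
    rw [two_mul_EUS, Finset.sum_congr rfl fun v _ => Finset.sum_congr rfl (key v)]
    simp only [Finset.sum_add_distrib]
    rw [sum_nbr_left G ψ, sum_nbr_right G ψ]
    ring
  have hout : ∀ v, v ∉ ({x, y, z} : Finset V) → G.degree v = 1 := by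
    intro v hv
    simp only [mem_insert, mem_singleton, not_or] at hv
    exact hleaf v hv.1 hv.2.1 hv.2.2
  have s1 : ∑ v, (G.degree v : ℝ) * ψ v = a * wt 1 a + b * wt 1 b + c * wt 1 c := by
    rw [← Finset.sum_subset (Finset.subset_univ ({x, y, z} : Finset V))]
    · rw [Finset.sum_insert (by simp [nxy, nxz]), Finset.sum_insert (by simp [nyz]),
        Finset.sum_singleton]
      simp only [hψ, hx, hy, hz, ha, hb, hc', if_false]
      ring
    · intro v _ hv
      simp [hψ, hout v hv]
  have s2 : ∀ u v w : V, G.Adj u v → G.Adj u w → v ≠ w →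
      (∀ t, t ≠ u → t ≠ v → t ≠ w → G.degree t = 1) →
      ∑ t ∈ G.neighborFinset u, δ u t = δ u v + δ u w := by
    intro u v w h1 h2 h3 h4
    rw [← Finset.sum_subset (s₁ := {v, w})]
    · rw [Finset.sum_pair h3]
    · intro t ht
      simp only [mem_insert, mem_singleton] at ht
      rcases ht with rfl | rfl <;> simpa
    · intro t ht ht'
      simp only [mem_insert, mem_singleton, not_or] at ht'
      have : G.degree t = 1 := h4 t (by rintro rfl; simp at ht) ht'.1 ht'.2
      simp [hδ, this]
  have s3 : ∑ v, ∑ w ∈ G.neighborFinset v, δ v w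
      = (δ x y + δ x z) + (δ y x + δ y z) + (δ z x + δ z y) := by
    rw [← Finset.sum_subset (Finset.subset_univ ({x, y, z} : Finset V))]
    · rw [Finset.sum_insert (by simp [nxy, nxz]), Finset.sum_insert (by simp [nyz]),
        Finset.sum_singleton]
      rw [s2 x y z hxy hxz nyz hleaf,
        s2 y x z hxy.symm hyz nxz (fun t h1 h2 h3 => hleaf t h2 h1 h3),
        s2 z x y hxz.symm hyz.symm nxy (fun t h1 h2 h3 => hleaf t h2 h3 h1)]
      ring
    · intro v _ hv
      refine Finset.sum_eq_zero fun w _ => ?_
      simp [hδ, hout v hv]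
  have d1 : δ x y = wt a b - wt 1 a - wt 1 b := by simp [hδ, hψ, hx, hy, ha, hb]
  have d2 : δ x z = wt a c - wt 1 a - wt 1 c := by simp [hδ, hψ, hx, hz, ha, hc']
  have d3 : δ y z = wt b c - wt 1 b - wt 1 c := by simp [hδ, hψ, hy, hz, hb, hc']
  have d4 : δ y x = wt a b - wt 1 a - wt 1 b := by
    simp only [hδ, hψ, hx, hy, ha, hb, or_self, if_false]; rw [wt_comm b a]; ring
  have d5 : δ z x = wt a c - wt 1 a - wt 1 c := by
    simp only [hδ, hψ, hx, hz, ha, hc', or_self, if_false]; rw [wt_comm c a]; ring
  have d6 : δ z y = wt b c - wt 1 b - wt 1 c := by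
    simp only [hδ, hψ, hy, hz, hb, hc', or_self, if_false]; rw [wt_comm c b]; ring
  rw [s1, s3, d1, d2, d3, d4, d5, d6] at h2
  linarith

end

end Pool.Agent.Work.MP_b3e27a_co
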