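import Mathlib

/-!
Euler Sombor index of chemical unicyclic graphs: the definitions used in the statement.
-/

namespace Pool.Agent.Work.MP_b3e27a_co

/-- contribution of an edge whose ends have degrees `a` and `b`: the square root of
`a ^ 2 + b ^ 2 + a * b` -/
noncomputable def wt (a b : ℕ) : ℝ := Real.sqrt ((a : ℝ) ^ 2 + (b : ℝ) ^ 2 + (a : ℝ) * b)

theorem wt_comm (a b : ℕ) : wt a b = wt b a := by
  unfold wt; congr 1; ring

open Classical in
/-- the Euler Sombor index: the sum of `wt (deg u) (deg v)` over all edges `uv` -/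
noncomputable def EUS {V : Type*} [Fintype V] (G : SimpleGraph V) : ℝ :=
  ∑ e ∈ G.edgeFinset,
    Sym2.lift ⟨fun x y => wt (G.degree x) (G.degree y), fun _ _ => wt_comm _ _⟩ e

open Classical in
/-- chemical unicyclic graphs: connected, as many edges as vertices, maximum degree at most 4 -/
def ChemUnicyclic {V : Type*} [Fintype V] (G : SimpleGraph V) : Prop :=
  G.Connected ∧ G.edgeFinset.card = Fintype.card V ∧ ∀ v, G.degree v ≤ 4

/-- the claimed maximum of the Euler Sombor index over chemical unicyclic graphs on `n` vertices -/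
noncomputable def M (n : ℕ) : ℝ :=
  if n = 3 then 3 * √12
  else if n = 4 then √12 + 2 * √19 + √13
  else if n = 5 then √12 + 2 * √28 + 2 * √21
  else if n = 6 then √19 + √28 + √37 + √13 + 2 * √21
  else if n = 8 then √48 + 2 * √37 + √13 + 4 * √21
  else if n % 3 = 0 then (2 * (n : ℝ) / 3) * √21 + ((n : ℝ) / 3) * √48
  else if n % 3 = 1 then
    (2 * ((n : ℝ) - 1) / 3) * √21 + 2 * √28 + (((n : ℝ) - 4) / 3) * √48
  else ((2 * (n : ℝ) - 1) / 3) * √21 + 3 * √37 + (((n : ℝ) - 8) / 3) * √48

open Classical in
/-- `G` is a triangle `xyz` with pendant vertices attached to its corners, the corners having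
degrees `a`, `b`, `c` in `G` -/
def IsTri {V : Type*} [Fintype V] (G : SimpleGraph V) (a b c : ℕ) : Prop :=
  ∃ x y z, G.Adj x y ∧ G.Adj y z ∧ G.Adj x z ∧
    G.degree x = a ∧ G.degree y = b ∧ G.degree z = c ∧
    ∀ v, v ≠ x → v ≠ y → v ≠ z → G.degree v = 1

open Classical in
/-- exactly one vertex `x` has a degree outside `{1, 4}`; it has degree `r` and all its neighbours
have degree 4 -/
def OneOdd {V : Type*} [Fintype V] (G : SimpleGraph V) (r : ℕ) : Prop :=
  ∃ x, G.degree x = r ∧ (∀ y, G.Adj x y → G.degree y = 4) ∧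
    ∀ v, v ≠ x → G.degree v = 1 ∨ G.degree v = 4

open Classical in
/-- the structure of the extremal graphs, according to the number `n` of vertices -/
def Extremal {n : ℕ} (G : SimpleGraph (Fin n)) : Prop :=
  if n = 3 then IsTri G 2 2 2
  else if n = 4 then IsTri G 3 2 2
  else if n = 5 then IsTri G 4 2 2
  else if n = 6 then IsTri G 4 3 2
  else if n = 8 then IsTri G 4 4 3
  else if n % 3 = 0 then ∀ v, G.degree v = 1 ∨ G.degree v = 4
  else if n % 3 = 1 then OneOdd G 2
  else OneOdd G 3

end Pool.Agent.Work.MP_b3e27a_co
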