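import Pool.Agent.Work.MP_b3e27a_co.General

/-!
Euler Sombor index of chemical unicyclic graphs: existence of the extremal graphs.
-/

namespace Pool.Agent.Work.MP_b3e27a_co

open Finset

section attach
variable {V : Type} (G : SimpleGraph V) (v : V) (m : ℕ)

/-- attach `m` pendant vertices to the vertex `v` -/
def attach : SimpleGraph (V ⊕ Fin m) where
  Adj x y := match x, y with
    | .inl a, .inl b => G.Adj a b
    | .inl a, .inr _ => a = v
    | .inr _, .inl a => a = v
    | .inr _, .inr _ => False
  symm := ⟨fun x y => by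
    rcases x with a | i <;> rcases y with b | j
    · exact fun h => SimpleGraph.adj_symm G h
    · exact id
    · exact id
    · exact id⟩
  loopless := ⟨fun x => by
    rcases x with a | i
    · exact fun h => G.loopless.irrefl a h
    · exact id⟩

@[simp] theorem attach_ll (a b : V) : (attach G v m).Adj (.inl a) (.inl b) ↔ G.Adj a b := Iff.rfl
@[simp] theorem attach_lr (a : V) (j : Fin m) : (attach G v m).Adj (.inl a) (.inr j) ↔ a = v :=
  Iff.rfl
@[simp] theorem attach_rl (a : V) (j : Fin m) : (attach G v m).Adj (.inr j) (.inl a) ↔ a = v :=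
  Iff.rfl
@[simp] theorem attach_rr (i j : Fin m) : (attach G v m).Adj (.inr i) (.inr j) ↔ False := Iff.rfl

variable [Fintype V]

open Classical in
theorem attach_deg_l (a : V) :
    (attach G v m).degree (.inl a) = G.degree a + if a = v then m else 0 := by
  rw [← SimpleGraph.card_neighborFinset_eq_degree, ← SimpleGraph.card_neighborFinset_eq_degree]
  have : (attach G v m).neighborFinset (.inl a)
      = (G.neighborFinset a).disjSum (if a = v then (univ : Finset (Fin m)) else ∅) := by
    ext x
    rcases x with b | j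
    · simp
    · by_cases h : a = v <;> simp [h]
  rw [this, Finset.card_disjSum]
  by_cases h : a = v <;> simp [h]

open Classical in
theorem attach_deg_r (j : Fin m) : (attach G v m).degree (.inr j) = 1 := by
  rw [← SimpleGraph.card_neighborFinset_eq_degree]
  have : (attach G v m).neighborFinset (.inr j)
      = ({v} : Finset V).disjSum (∅ : Finset (Fin m)) := by
    ext x
    rcases x with b | i
    · simp
    · simp
  rw [this, Finset.card_disjSum]
  simp

omit [Fintype V] in
theorem attach_connected (hG : G.Connected) : (attach G v m).Connected := by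
  have hl : ∀ a b : V, (attach G v m).Reachable (.inl a) (.inl b) := by
    intro a b
    obtain ⟨p⟩ := hG.preconnected a b
    exact ⟨p.map ⟨Sum.inl, fun h => h⟩⟩
  have hv : ∀ x, (attach G v m).Reachable x (.inl v) := by
    intro x
    rcases x with a | j
    · exact hl a v
    · exact SimpleGraph.Adj.reachable (by simp)
  have : Nonempty (V ⊕ Fin m) := ⟨.inl v⟩
  exact ⟨fun x y => (hv x).trans (hv y).symm⟩

open Classical in
theorem attach_edges (hG : G.edgeFinset.card = Fintype.card V) :
    (attach G v m).edgeFinset.card = Fintype.card (V ⊕ Fin m) := by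
  have h1 := (attach G v m).sum_degrees_eq_twice_card_edges
  have h2 := G.sum_degrees_eq_twice_card_edges
  rw [Fintype.sum_sum_type] at h1
  have e1 : ∀ a : V, (attach G v m).degree (.inl a) = G.degree a + if a = v then m else 0 :=
    attach_deg_l G v m
  have e2 : ∀ j : Fin m, (attach G v m).degree (.inr j) = 1 := attach_deg_r G v m
  simp only [e1, e2] at h1
  rw [Finset.sum_add_distrib, h2, hG] at h1
  simp only [Finset.sum_ite_eq', mem_univ, if_true, sum_const, card_univ, Fintype.card_fin,
    smul_eq_mul, mul_one] at h1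
  rw [Fintype.card_sum, Fintype.card_fin]
  omega

end attach

open Classical in
/-- unicyclic graphs with no degree condition -/
def Uni {V : Type} [Fintype V] (G : SimpleGraph V) : Prop :=
  G.Connected ∧ G.edgeFinset.card = Fintype.card V

theorem Uni.attach {V : Type} [Fintype V] {G : SimpleGraph V} (h : Uni G) (v : V) (m : ℕ) :
    Uni (attach G v m) := ⟨attach_connected G v m h.1, attach_edges G v m h.2⟩

theorem IsTri.attach {V : Type} [Fintype V] {G : SimpleGraph V} {a b c : ℕ} (h : IsTri G a b c)
    (m : ℕ) : ∃ v, IsTri (attach G v m) (a + m) b c := by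
  classical
  obtain ⟨x, y, z, hxy, hyz, hxz, hx, hy, hz, hl⟩ := h
  refine ⟨x, .inl x, .inl y, .inl z, hxy, hyz, hxz, ?_, ?_, ?_, ?_⟩
  · rw [attach_deg_l, hx, if_pos rfl]
  · rw [attach_deg_l, hy, if_neg hxy.ne', add_zero]
  · rw [attach_deg_l, hz, if_neg hxz.ne', add_zero]
  · intro v h1 h2 h3
    rcases v with u | j
    · have h1' : u ≠ x := fun h => h1 (by rw [h])
      have h2' : u ≠ y := fun h => h2 (by rw [h])
      have h3' : u ≠ z := fun h => h3 (by rw [h])
      rw [attach_deg_l, hl u h1' h2' h3', if_neg h1', add_zero]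
    · exact attach_deg_r G x m j

set_option linter.unusedSectionVars false in
/-- existence of triangles with pendant vertices -/
theorem exists_tri (a b c : ℕ) :
    ∃ (V : Type) (_ : Fintype V) (G : SimpleGraph V), Fintype.card V = a + b + c + 3 ∧ Uni G ∧
      IsTri G (a + 2) (b + 2) (c + 2) := by
  letI : DecidableRel (⊤ : SimpleGraph (Fin 3)).Adj := fun _ _ => Classical.propDecidable _
  -- the triangle
  have hdeg : ∀ v : Fin 3, (⊤ : SimpleGraph (Fin 3)).degree v = 2 := by
    intro v
    rw [← SimpleGraph.card_neighborFinset_eq_degree]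
    have : (⊤ : SimpleGraph (Fin 3)).neighborFinset v = univ.erase v := by
      ext w
      simp [eq_comm]
    rw [this, Finset.card_erase_of_mem (mem_univ v), Finset.card_univ, Fintype.card_fin]
  have h0 : Uni (⊤ : SimpleGraph (Fin 3)) := by
    refine ⟨SimpleGraph.connected_top, ?_⟩
    have h3 := (⊤ : SimpleGraph (Fin 3)).sum_degrees_eq_twice_card_edges
    simp only [hdeg, Finset.sum_const, Finset.card_univ, Fintype.card_fin, smul_eq_mul] at h3
    rw [Fintype.card_fin]
    omega
  have t0 : IsTri (⊤ : SimpleGraph (Fin 3)) 2 2 2 := by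
    refine ⟨0, 1, 2, by simp, by simp, by simp, hdeg 0, hdeg 1, hdeg 2, ?_⟩
    intro v h1 h2 h3
    fin_cases v <;> simp at h1 h2 h3
  obtain ⟨v1, t1⟩ := t0.attach c
  have u1 := h0.attach v1 c
  obtain ⟨v2, t2⟩ := t1.swap12.attach b
  have u2 := u1.attach v2 b
  obtain ⟨v3, t3⟩ := t2.swap12.swap23.swap12.attach a
  have u3 := u2.attach v3 a
  refine ⟨_, inferInstance, _, ?_, u3, ?_⟩
  · simp only [Fintype.card_sum, Fintype.card_fin]; omega
  · have := t3.swap23
    rw [add_comm a 2, add_comm b 2, add_comm c 2]
    exact this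

/-- property transported to `Fin n` -/
theorem to_fin {V : Type} [Fintype V] (G : SimpleGraph V) {n : ℕ} (hc : Fintype.card V = n) :
    (Uni G → Uni (G.overFin hc)) ∧
    (∀ a b c, IsTri G a b c → IsTri (G.overFin hc) a b c) ∧
    (∀ r, OneOdd G r → OneOdd (G.overFin hc) r) ∧
    (∀ P : ℕ → Prop, open Classical in (∀ v, P (G.degree v)) → ∀ v, P ((G.overFin hc).degree v)) := by
  classical
  set e := G.overFinIso hc with he
  have hd : ∀ v, (G.overFin hc).degree (e v) = G.degree v := fun v => e.degree_eq v
  have hd' : ∀ w, (G.overFin hc).degree w = G.degree (e.symm w) := by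
    intro w
    rw [← hd (e.symm w), RelIso.apply_symm_apply]
  have hadj : ∀ v w, (G.overFin hc).Adj (e v) (e w) ↔ G.Adj v w := fun v w => e.map_adj_iff
  refine ⟨?_, ?_, ?_, ?_⟩
  · intro h
    refine ⟨e.connected_iff.1 h.1, ?_⟩
    rw [← SimpleGraph.Iso.card_edgeFinset_eq e, h.2, hc, Fintype.card_fin]
  · rintro a b c ⟨x, y, z, hxy, hyz, hxz, hx, hy, hz, hl⟩
    refine ⟨e x, e y, e z, (hadj _ _).2 hxy, (hadj _ _).2 hyz, (hadj _ _).2 hxz,
      by rw [hd, hx], by rw [hd, hy], by rw [hd, hz], ?_⟩
    intro v h1 h2 h3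
    rw [hd']
    refine hl _ ?_ ?_ ?_
    · rintro rfl; exact h1 (by rw [RelIso.apply_symm_apply])
    · rintro rfl; exact h2 (by rw [RelIso.apply_symm_apply])
    · rintro rfl; exact h3 (by rw [RelIso.apply_symm_apply])
  · rintro r ⟨x, hx, hnb, hoth⟩
    refine ⟨e x, by rw [hd, hx], ?_, ?_⟩
    · intro y hy
      rw [hd']
      refine hnb _ ?_
      rw [← hadj, RelIso.apply_symm_apply]
      exact hy
    · intro v hv
      rw [hd']
      refine hoth _ ?_
      rintro rfl
      exact hv (by rw [RelIso.apply_symm_apply])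
  · intro P h v
    rw [hd']
    exact h _

end Pool.Agent.Work.MP_b3e27a_co
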