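import Pool.Agent.Work.MP_b3e27a_co.Exist

/-!
Euler Sombor index of chemical unicyclic graphs: existence of the extremal graphs for all `n`.
-/

namespace Pool.Agent.Work.MP_b3e27a_co

open Finset

open Classical in
def PA (n : ℕ) : Prop := ∃ (V : Type) (_ : Fintype V) (G : SimpleGraph V), Fintype.card V = n ∧
  Uni G ∧ (∀ v, G.degree v = 1 ∨ G.degree v = 4) ∧ ∃ v, G.degree v = 1

open Classical in
def PB (r n : ℕ) : Prop := ∃ (V : Type) (_ : Fintype V) (G : SimpleGraph V), Fintype.card V = n ∧
  Uni G ∧ OneOdd G r ∧ ∃ v, G.degree v = 1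

open Classical in
/-- a triangle with pendant vertices on more than three vertices has a pendant vertex -/
theorem tri_leaf {V : Type} [Fintype V] {G : SimpleGraph V} {a b c : ℕ} (h : IsTri G a b c)
    (hn : 4 ≤ Fintype.card V) : ∃ v, G.degree v = 1 := by
  obtain ⟨x, y, z, hxy, hyz, hxz, hx, hy, hz, hl⟩ := h
  obtain ⟨u, hu⟩ : ∃ u, u ∉ ({x, y, z} : Finset V) := by
    by_contra hcon
    push Not at hcon
    have : (univ : Finset V) ⊆ {x, y, z} := fun u _ => hcon u
    have := Finset.card_le_card this
    rw [card_univ] at this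
    have h2 : ({x, y, z} : Finset V).card ≤ 3 := Finset.card_le_three
    omega
  simp only [mem_insert, mem_singleton, not_or] at hu
  exact ⟨u, hl u hu.1 hu.2.1 hu.2.2⟩

theorem PA_step {n : ℕ} (h : PA n) : PA (n + 3) := by
  classical
  obtain ⟨V, _, G, hc, hU, hd, l, hl⟩ := h
  refine ⟨_, inferInstance, attach G l 3, ?_, hU.attach l 3, ?_, ⟨.inr 0, ?_⟩⟩
  · rw [Fintype.card_sum, hc, Fintype.card_fin]
  · intro v
    rcases v with a | j
    · rw [attach_deg_l]
      by_cases ha : a = l
      · subst ha; right; rw [hl, if_pos rfl]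
      · rw [if_neg ha, add_zero]; exact hd a
    · left; exact attach_deg_r G l 3 j
  · exact attach_deg_r G l 3 0

theorem PA_all (k : ℕ) : PA (9 + 3 * k) := by
  classical
  induction k with
  | zero =>
    obtain ⟨V, _, G, hc, hU, ht⟩ := exists_tri 2 2 2
    refine ⟨V, inferInstance, G, hc, hU, ?_, tri_leaf ht (by omega)⟩
    obtain ⟨x, y, z, hxy, hyz, hxz, hx, hy, hz, hl⟩ := ht
    intro v
    by_cases h1 : v = x
    · right; rw [h1, hx]
    by_cases h2 : v = y
    · right; rw [h2, hy]
    by_cases h3 : v = z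
    · right; rw [h3, hz]
    exact Or.inl (hl v h1 h2 h3)
  | succ k ih =>
    have := PA_step ih
    rwa [show 9 + 3 * k + 3 = 9 + 3 * (k + 1) by ring] at this

theorem PB_step {r n : ℕ} (hr : r = 2 ∨ r = 3) (h : PB r n) : PB r (n + 3) := by
  classical
  obtain ⟨V, _, G, hc, hU, ⟨x, hx, hnb, hoth⟩, l, hl⟩ := h
  have hxl : x ≠ l := by rintro rfl; omega
  refine ⟨_, inferInstance, attach G l 3, ?_, hU.attach l 3, ⟨.inl x, ?_, ?_, ?_⟩, ⟨.inr 0, ?_⟩⟩
  · rw [Fintype.card_sum, hc, Fintype.card_fin]
  · rw [attach_deg_l, hx, if_neg hxl, add_zero]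
  · intro y hy
    rcases y with b | j
    · have hb : G.degree b = 4 := hnb b hy
      rw [attach_deg_l, hb, if_neg (by rintro rfl; omega), add_zero]
    · exact absurd hy hxl
  · intro v hv
    rcases v with a | j
    · have ha : a ≠ x := fun h => hv (by rw [h])
      rw [attach_deg_l]
      by_cases hal : a = l
      · subst hal; right; rw [hl, if_pos rfl]
      · rw [if_neg hal, add_zero]; exact hoth a ha
    · left; exact attach_deg_r G l 3 j
  · exact attach_deg_r G l 3 0

theorem PB_two (k : ℕ) : PB 2 (7 + 3 * k) := by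
  classical
  induction k with
  | zero =>
    obtain ⟨V, _, G, hc, hU, ht⟩ := exists_tri 2 2 0
    refine ⟨V, inferInstance, G, hc, hU, ?_, tri_leaf ht (by omega)⟩
    obtain ⟨x, y, z, hxy, hyz, hxz, hx, hy, hz, hl⟩ := ht
    have hN : G.neighborFinset z = {x, y} := by
      symm
      refine Finset.eq_of_subset_of_card_le ?_ ?_
      · intro u hu
        simp only [mem_insert, mem_singleton] at hu
        rcases hu with rfl | rfl
        · simpa using hxz.symm
        · simpa using hyz.symm
      · rw [SimpleGraph.card_neighborFinset_eq_degree, hz, Finset.card_pair hxy.ne]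
    refine ⟨z, hz, ?_, ?_⟩
    · intro u hu
      have : u ∈ G.neighborFinset z := by simpa using hu
      rw [hN] at this
      simp only [mem_insert, mem_singleton] at this
      rcases this with rfl | rfl
      · exact hx
      · exact hy
    · intro v h3
      by_cases h1 : v = x
      · right; rw [h1, hx]
      by_cases h2 : v = y
      · right; rw [h2, hy]
      exact Or.inl (hl v h1 h2 h3)
  | succ k ih =>
    have := PB_step (Or.inl rfl) ih
    rwa [show 7 + 3 * k + 3 = 7 + 3 * (k + 1) by ring] at this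

theorem PB_three (k : ℕ) : PB 3 (11 + 3 * k) := by
  classical
  induction k with
  | zero =>
    obtain ⟨V, _, G, hc, hU, ht⟩ := exists_tri 2 2 1
    obtain ⟨x, y, z, hxy, hyz, hxz, hx, hy, hz, hl⟩ := ht
    obtain ⟨l, hlz, hlx, hly⟩ : ∃ l, G.Adj z l ∧ l ≠ x ∧ l ≠ y := by
      by_contra hcon
      push Not at hcon
      have : G.neighborFinset z ⊆ {x, y} := by
        intro u hu
        have hu' : G.Adj z u := by simpa using hu
        simp only [mem_insert, mem_singleton]
        by_cases h : u = x
        · exact Or.inl h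
        · exact Or.inr (hcon u hu' h)
      have := Finset.card_le_card this
      rw [SimpleGraph.card_neighborFinset_eq_degree, hz, Finset.card_pair hxy.ne] at this
      omega
    have hll : G.degree l = 1 := hl l hlx hly hlz.ne'
    have hN : G.neighborFinset z = {x, y, l} := by
      symm
      refine Finset.eq_of_subset_of_card_le ?_ ?_
      · intro u hu
        simp only [mem_insert, mem_singleton] at hu
        rcases hu with rfl | rfl | rfl
        · simpa using hxz.symm
        · simpa using hyz.symm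
        · simpa using hlz
      · rw [SimpleGraph.card_neighborFinset_eq_degree, hz, Finset.card_eq_three.2
          ⟨x, y, l, hxy.ne, hlx.symm, hly.symm, rfl⟩]
    refine ⟨_, inferInstance, attach G l 3, ?_, hU.attach l 3, ⟨.inl z, ?_, ?_, ?_⟩,
      ⟨.inr 0, attach_deg_r G l 3 0⟩⟩
    · rw [Fintype.card_sum, hc, Fintype.card_fin]
    · rw [attach_deg_l, hz, if_neg hlz.ne, add_zero]
    · intro u hu
      rcases u with b | j
      · have : b ∈ G.neighborFinset z := by simpa using hu
        rw [hN] at this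
        simp only [mem_insert, mem_singleton] at this
        rw [attach_deg_l]
        rcases this with rfl | rfl | rfl
        · rw [hx, if_neg hlx.symm]
        · rw [hy, if_neg hly.symm]
        · rw [hll, if_pos rfl]
      · exact absurd hu hlz.ne
    · intro v hv
      rcases v with a | j
      · have ha : a ≠ z := fun h => hv (by rw [h])
        rw [attach_deg_l]
        by_cases hal : a = l
        · subst hal; right; rw [hll, if_pos rfl]
        · rw [if_neg hal, add_zero]
          by_cases h1 : a = x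
          · right; rw [h1, hx]
          by_cases h2 : a = y
          · right; rw [h2, hy]
          exact Or.inl (hl a h1 h2 ha)
      · left; exact attach_deg_r G l 3 j
  | succ k ih =>
    have := PB_step (Or.inr rfl) ih
    rwa [show 11 + 3 * k + 3 = 11 + 3 * (k + 1) by ring] at this

/-- chemical unicyclic from the structure -/
theorem chem_of_le {n : ℕ} {G : SimpleGraph (Fin n)} (h : Uni G)
    (hd : open Classical in ∀ v, G.degree v ≤ 4) : ChemUnicyclic G := ⟨h.1, h.2, hd⟩

open Classical in
theorem tri_le {n : ℕ} {G : SimpleGraph (Fin n)} {a b c : ℕ} (h : IsTri G a b c) (ha : a ≤ 4)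
    (hb : b ≤ 4) (hc : c ≤ 4) : ∀ v, G.degree v ≤ 4 := by
  obtain ⟨x, y, z, hxy, hyz, hxz, hx, hy, hz, hl⟩ := h
  intro v
  by_cases h1 : v = x
  · rw [h1, hx]; exact ha
  by_cases h2 : v = y
  · rw [h2, hy]; exact hb
  by_cases h3 : v = z
  · rw [h3, hz]; exact hc
  rw [hl v h1 h2 h3]; norm_num

theorem exist_tri_fin {n a b c : ℕ} (hn : a + b + c + 3 = n) (ha : a ≤ 2) (hb : b ≤ 2)
    (hc : c ≤ 2) : ∃ G : SimpleGraph (Fin n), ChemUnicyclic G ∧
      IsTri G (a + 2) (b + 2) (c + 2) := by
  obtain ⟨V, _, G, hcard, hU, ht⟩ := exists_tri a b c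
  obtain ⟨t1, t2, t3, t4⟩ := to_fin G (hcard.trans hn)
  exact ⟨_, chem_of_le (t1 hU) (tri_le (t2 _ _ _ ht) (by omega) (by omega) (by omega)),
    t2 _ _ _ ht⟩

theorem exist_ext {n : ℕ} (hn : 3 ≤ n) :
    ∃ G : SimpleGraph (Fin n), ChemUnicyclic G ∧ Extremal G := by
  classical
  unfold Extremal
  split_ifs with h3 h4 h5 h6 h8 h0 h1
  · exact exist_tri_fin (a := 0) (b := 0) (c := 0) (by omega) (by norm_num) (by norm_num)
      (by norm_num)
  · exact exist_tri_fin (a := 1) (b := 0) (c := 0) (by omega) (by norm_num) (by norm_num)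
      (by norm_num)
  · exact exist_tri_fin (a := 2) (b := 0) (c := 0) (by omega) (by norm_num) (by norm_num)
      (by norm_num)
  · exact exist_tri_fin (a := 2) (b := 1) (c := 0) (by omega) (by norm_num) (by norm_num)
      (by norm_num)
  · exact exist_tri_fin (a := 2) (b := 2) (c := 1) (by omega) (by norm_num) (by norm_num)
      (by norm_num)
  · obtain ⟨V, _, G, hcard, hU, hd, -⟩ := PA_all ((n - 9) / 3)
    obtain ⟨t1, t2, t3, t4⟩ := to_fin G (hcard.trans (by omega : 9 + 3 * ((n - 9) / 3) = n))
    have hd' := t4 (fun d => d = 1 ∨ d = 4) hd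
    refine ⟨_, chem_of_le (t1 hU) ?_, ?_⟩
    · intro v; rcases hd' v with h | h <;> rw [h] <;> norm_num
    · exact hd'
  · obtain ⟨V, _, G, hcard, hU, hd, -⟩ := PB_two ((n - 7) / 3)
    obtain ⟨t1, t2, t3, t4⟩ := to_fin G (hcard.trans (by omega : 7 + 3 * ((n - 7) / 3) = n))
    have hd' := t3 2 hd
    refine ⟨_, chem_of_le (t1 hU) ?_, hd'⟩
    obtain ⟨x, hx, hnb, hoth⟩ := hd'
    intro v
    by_cases hv : v = x
    · rw [hv, hx]; norm_num
    · rcases hoth v hv with h | h <;> rw [h] <;> norm_num
  · obtain ⟨V, _, G, hcard, hU, hd, -⟩ := PB_three ((n - 11) / 3)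
    obtain ⟨t1, t2, t3, t4⟩ := to_fin G (hcard.trans (by omega : 11 + 3 * ((n - 11) / 3) = n))
    have hd' := t3 3 hd
    refine ⟨_, chem_of_le (t1 hU) ?_, hd'⟩
    obtain ⟨x, hx, hnb, hoth⟩ := hd'
    intro v
    by_cases hv : v = x
    · rw [hv, hx]; norm_num
    · rcases hoth v hv with h | h <;> rw [h] <;> norm_num

end Pool.Agent.Work.MP_b3e27a_co
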