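import Pool.Agent.Work.MP_b3e27a_co.Upper

/-!
Euler Sombor index of chemical unicyclic graphs: the upper bound with its equality cases for the
general values of `n`.
-/

namespace Pool.Agent.Work.MP_b3e27a_co

open Finset

section
variable {V : Type*} [Fintype V] {G : SimpleGraph V}

theorem M_zero {n : ℕ} (h : n % 3 = 0) (h9 : 9 ≤ n) : M n = cA * n := by
  unfold M cA
  rw [if_neg (by omega), if_neg (by omega), if_neg (by omega), if_neg (by omega),
    if_neg (by omega), if_pos h, s48]
  ring

theorem M_one {n : ℕ} (h : n % 3 = 1) (h7 : 7 ≤ n) : M n = cA * n - cB := by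
  unfold M cA cB
  rw [if_neg (by omega), if_neg (by omega), if_neg (by omega), if_neg (by omega),
    if_neg (by omega), if_neg (by omega), if_pos h, s48, s28]
  ring

theorem M_two {n : ℕ} (h : n % 3 = 2) (h11 : 11 ≤ n) : M n = cA * n - cC := by
  unfold M cA cC
  rw [if_neg (by omega), if_neg (by omega), if_neg (by omega), if_neg (by omega),
    if_neg (by omega), if_neg (by omega), if_neg (by omega), s48]
  ring

open Classical in
theorem cnt_eq_zero_iff (i : ℕ) : cnt G i = 0 ↔ ∀ v, G.degree v ≠ i := by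
  unfold cnt
  rw [Finset.card_eq_zero, Finset.filter_eq_empty_iff]
  simp

open Classical in
theorem gen_zero {n : ℕ} (hG : ChemUnicyclic G) (hc : Fintype.card V = n) (h : n % 3 = 0)
    (h9 : 9 ≤ n) :
    EUS G ≤ M n ∧ (EUS G = M n ↔ ∀ v, G.degree v = 1 ∨ G.degree v = 4) := by
  have hn3 : 3 ≤ Fintype.card V := by omega
  have hle := EUS_le' hG hn3
  have hB := cB_pos
  have hC := cC_gt
  rw [M_zero h h9]
  rw [hc] at hle
  have h2 : (cB : ℝ) * cnt G 2 ≥ 1.7 * cnt G 2 :=
    mul_le_mul_of_nonneg_right hB.le (Nat.cast_nonneg _)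
  have h3 : (cC : ℝ) * cnt G 3 ≥ 1.74 * cnt G 3 :=
    mul_le_mul_of_nonneg_right (by linarith) (Nat.cast_nonneg _)
  have p2 : (0 : ℝ) ≤ cnt G 2 := Nat.cast_nonneg _
  have p3 : (0 : ℝ) ≤ cnt G 3 := Nat.cast_nonneg _
  refine ⟨by linarith, ?_, ?_⟩
  · intro he
    have q2 : (cnt G 2 : ℝ) = 0 := by linarith
    have q3 : (cnt G 3 : ℝ) = 0 := by linarith
    have q2' : cnt G 2 = 0 := by exact_mod_cast q2
    have q3' : cnt G 3 = 0 := by exact_mod_cast q3
    rw [cnt_eq_zero_iff] at q2' q3'
    intro v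
    have := deg_bd hG hn3 v
    have := q2' v
    have := q3' v
    omega
  · intro hd
    have q2 : cnt G 2 = 0 := (cnt_eq_zero_iff 2).2 fun v => by rcases hd v with h | h <;> omega
    have q3 : cnt G 3 = 0 := (cnt_eq_zero_iff 3).2 fun v => by rcases hd v with h | h <;> omega
    have he := (EUS_eq_iff hG hn3).2 (by
      intro v w hvw
      rcases hd v with h | h
      · have := leaf_nbr hG.1 hn3 h hvw
        rcases hd w with h' | h'
        · exact absurd h' this
        · exact Or.inr h'
      · exact Or.inl h)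
    rw [he, bound_form hG hn3, hc, q2, q3]
    simp

open Classical in
/-- common part of the two other residue classes -/
theorem gen_aux {r : ℕ} (hG : ChemUnicyclic G) (hn3 : 3 ≤ Fintype.card V)
    (hr : r = 2 ∨ r = 3) :
    (EUS G = cnt G 1 * pot 1 + 2 * cnt G 2 * pot 2 + 3 * cnt G 3 * pot 3 + 4 * cnt G 4 * pot 4 ∧
      cnt G r = 1 ∧ cnt G (5 - r) = 0) ↔ OneOdd G r := by
  rw [EUS_eq_iff hG hn3]
  constructor
  · rintro ⟨hE, h1, h0⟩
    unfold cnt at h1
    obtain ⟨x, hx⟩ := Finset.card_eq_one.1 h1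
    have hxr : G.degree x = r := by
      have : x ∈ univ.filter (fun v => G.degree v = r) := by rw [hx]; simp
      simpa using this
    refine ⟨x, hxr, ?_, ?_⟩
    · intro y hxy
      rcases hE x y hxy with h | h
      · omega
      · exact h
    · intro v hv
      have hvr : G.degree v ≠ r := by
        intro h
        have : v ∈ univ.filter (fun v => G.degree v = r) := by simpa using h
        rw [hx] at this
        exact hv (by simpa using this)
      have h5 := (cnt_eq_zero_iff _).1 h0 v
      have := deg_bd hG hn3 v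
      omega
  · rintro ⟨x, hx, hnb, hoth⟩
    refine ⟨?_, ?_, ?_⟩
    · intro v w hvw
      by_cases hv : v = x
      · subst hv; exact Or.inr (hnb w hvw)
      · by_cases hw : w = x
        · subst hw; exact Or.inl (hnb v hvw.symm)
        · rcases hoth v hv with h | h
          · have := leaf_nbr hG.1 hn3 h hvw
            rcases hoth w hw with h' | h'
            · exact absurd h' this
            · exact Or.inr h'
          · exact Or.inl h
    · unfold cnt
      rw [Finset.card_eq_one]
      refine ⟨x, ?_⟩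
      ext v
      simp only [mem_filter, mem_univ, true_and, mem_singleton]
      constructor
      · intro h
        by_contra hv
        rcases hoth v hv with h' | h' <;> omega
      · rintro rfl; exact hx
    · rw [cnt_eq_zero_iff]
      intro v h
      by_cases hv : v = x
      · subst hv; omega
      · rcases hoth v hv with h' | h' <;> omega

open Classical in
theorem gen_one {n : ℕ} (hG : ChemUnicyclic G) (hc : Fintype.card V = n) (h : n % 3 = 1)
    (h7 : 7 ≤ n) :
    EUS G ≤ M n ∧ (EUS G = M n ↔ OneOdd G 2) := by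
  have hn3 : 3 ≤ Fintype.card V := by omega
  obtain ⟨r1, r2⟩ := cnt_rel hG hn3
  have hle := EUS_le' hG hn3
  have hB := cB_pos
  have hC := cC_gt
  rw [M_one h h7, ← gen_aux hG hn3 (Or.inl rfl)]
  rw [hc] at hle r1
  have p2 : (0 : ℝ) ≤ cnt G 2 := Nat.cast_nonneg _
  have p3 : (0 : ℝ) ≤ cnt G 3 := Nat.cast_nonneg _
  have hcase : (cnt G 2 = 1 ∧ cnt G 3 = 0) ∨ 1 ≤ cnt G 3 ∨ (2 ≤ cnt G 2) := by omega
  have hbf := bound_form hG hn3
  rw [hc] at hbf
  rcases hcase with ⟨q2, q3⟩ | q3 | q2
  · rw [q2, q3] at hle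
    push_cast at hle
    refine ⟨by linarith, ?_⟩
    rw [hbf, q2, q3]
    push_cast
    constructor
    · intro he
      exact ⟨by linarith, trivial, trivial⟩
    · rintro ⟨he, -, -⟩
      linarith
  · have q3' : (1 : ℝ) ≤ cnt G 3 := by exact_mod_cast q3
    have : cC * 1 ≤ cC * cnt G 3 := mul_le_mul_of_nonneg_left q3' (by linarith)
    have : 0 ≤ cB * cnt G 2 := mul_nonneg (by linarith) p2
    refine ⟨by linarith, ?_⟩
    constructor
    · intro he; linarith
    · rintro ⟨-, -, h0⟩; simp at h0; omega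
  · have q2' : (2 : ℝ) ≤ cnt G 2 := by exact_mod_cast q2
    have : cB * 2 ≤ cB * cnt G 2 := mul_le_mul_of_nonneg_left q2' (by linarith)
    have : 0 ≤ cC * cnt G 3 := mul_nonneg (by linarith) p3
    refine ⟨by linarith, ?_⟩
    constructor
    · intro he; linarith
    · rintro ⟨-, h1, -⟩; omega

open Classical in
theorem gen_two {n : ℕ} (hG : ChemUnicyclic G) (hc : Fintype.card V = n) (h : n % 3 = 2)
    (h11 : 11 ≤ n) :
    EUS G ≤ M n ∧ (EUS G = M n ↔ OneOdd G 3) := by
  have hn3 : 3 ≤ Fintype.card V := by omega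
  obtain ⟨r1, r2⟩ := cnt_rel hG hn3
  have hle := EUS_le' hG hn3
  have hB := cB_pos
  have hC := cC_gt
  have hC' := cC_lt
  rw [M_two h h11, ← gen_aux hG hn3 (Or.inr rfl)]
  rw [hc] at hle r1
  have p2 : (0 : ℝ) ≤ cnt G 2 := Nat.cast_nonneg _
  have p3 : (0 : ℝ) ≤ cnt G 3 := Nat.cast_nonneg _
  have hcase : (cnt G 2 = 0 ∧ cnt G 3 = 1) ∨ 2 ≤ cnt G 3 ∨ (2 ≤ cnt G 2) := by omega
  have hbf := bound_form hG hn3
  rw [hc] at hbf
  rcases hcase with ⟨q2, q3⟩ | q3 | q2
  · rw [q2, q3] at hle
    push_cast at hle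
    refine ⟨by linarith, ?_⟩
    rw [hbf, q2, q3]
    push_cast
    constructor
    · intro he
      exact ⟨by linarith, trivial, trivial⟩
    · rintro ⟨he, -, -⟩
      linarith
  · have q3' : (2 : ℝ) ≤ cnt G 3 := by exact_mod_cast q3
    have : cC * 2 ≤ cC * cnt G 3 := mul_le_mul_of_nonneg_left q3' (by linarith)
    have : 0 ≤ cB * cnt G 2 := mul_nonneg (by linarith) p2
    refine ⟨by linarith, ?_⟩
    constructor
    · intro he; linarith
    · rintro ⟨-, h1, -⟩; omega
  · have q2' : (2 : ℝ) ≤ cnt G 2 := by exact_mod_cast q2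
    have : cB * 2 ≤ cB * cnt G 2 := mul_le_mul_of_nonneg_left q2' (by linarith)
    have : 0 ≤ cC * cnt G 3 := mul_nonneg (by linarith) p3
    refine ⟨by linarith, ?_⟩
    constructor
    · intro he; linarith
    · rintro ⟨-, -, h0⟩; simp at h0; omega

end

theorem upper {n : ℕ} (hn : 3 ≤ n) (G : SimpleGraph (Fin n)) (hG : ChemUnicyclic G) :
    EUS G ≤ M n ∧ (EUS G = M n ↔ Extremal G) := by
  classical
  have hc : Fintype.card (Fin n) = n := Fintype.card_fin n
  unfold Extremal
  split_ifs with h3 h4 h5 h6 h8 h0 h1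
  · exact small_case hG hc (by omega) (by omega)
  · exact small_case hG hc (by omega) (by omega)
  · exact small_case hG hc (by omega) (by omega)
  · exact small_case hG hc (by omega) (by omega)
  · exact small_case hG hc (by omega) (by omega)
  · exact gen_zero hG hc h0 (by omega)
  · exact gen_one hG hc h1 (by omega)
  · exact gen_two hG hc (by omega) (by omega)

end Pool.Agent.Work.MP_b3e27a_co
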