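import Pool.Agent.Work.MP_b3e27a_co.Core

/-!
Euler Sombor index of chemical unicyclic graphs: the upper bound with its equality cases.
-/

namespace Pool.Agent.Work.MP_b3e27a_co

open Finset

section
variable {V : Type*} [Fintype V] {G : SimpleGraph V}

theorem IsTri.swap12 {a b c : ℕ} (h : IsTri G a b c) : IsTri G b a c := by
  obtain ⟨x, y, z, hxy, hyz, hxz, hx, hy, hz, hl⟩ := h
  exact ⟨y, x, z, hxy.symm, hxz, hyz, hy, hx, hz, fun v h1 h2 h3 => hl v h2 h1 h3⟩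

theorem IsTri.swap23 {a b c : ℕ} (h : IsTri G a b c) : IsTri G a c b := by
  obtain ⟨x, y, z, hxy, hyz, hxz, hx, hy, hz, hl⟩ := h
  exact ⟨x, z, y, hxz, hyz.symm, hxy, hx, hz, hy, fun v h1 h2 h3 => hl v h1 h3 h2⟩

open Classical in
theorem tri_of_core (hG : ChemUnicyclic G) (hn : 3 ≤ Fintype.card V) (hk : (core G).card = 3) :
    ∃ a b c : ℕ, IsTri G a b c ∧ (2 ≤ a ∧ a ≤ 4) ∧ (2 ≤ b ∧ b ≤ 4) ∧ (2 ≤ c ∧ c ≤ 4) ∧
      ∀ i, 2 ≤ i → cnt G i = (if a = i then 1 else 0) + (if b = i then 1 else 0)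
        + (if c = i then 1 else 0) := by
  obtain ⟨x, y, z, hxy, hxz, hyz, hcore⟩ := Finset.card_eq_three.1 hk
  have hadj := core_tri hG hn hk
  have mx : x ∈ core G := by rw [hcore]; simp
  have my : y ∈ core G := by rw [hcore]; simp
  have mz : z ∈ core G := by rw [hcore]; simp
  have hd : ∀ v ∈ core G, 2 ≤ G.degree v ∧ G.degree v ≤ 4 := by
    intro v hv
    have h1 := deg_bd hG hn v
    have h2 : G.degree v ≠ 1 := by simpa [core] using hv
    omega
  refine ⟨G.degree x, G.degree y, G.degree z, ⟨x, y, z, hadj x mx y my hxy, hadj y my z mz hyz,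
    hadj x mx z mz hxz, rfl, rfl, rfl, ?_⟩, hd x mx, hd y my, hd z mz, ?_⟩
  · intro v h1 h2 h3
    by_contra hcon
    have : v ∈ core G := by simp [core, hcon]
    rw [hcore] at this
    simp at this
    tauto
  · intro i hi
    unfold cnt
    have : (univ.filter fun v => G.degree v = i) = (core G).filter fun v => G.degree v = i := by
      ext v
      simp only [core, mem_filter, mem_univ, true_and]
      constructor
      · intro h; exact ⟨by omega, h⟩
      · intro h; exact h.2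
    rw [this, hcore, Finset.card_filter]
    rw [Finset.sum_insert (by simp [hxy, hxz]), Finset.sum_insert (by simp [hyz]),
        Finset.sum_singleton]
    ring

theorem EUS_le' (hG : ChemUnicyclic G) (hn : 3 ≤ Fintype.card V) :
    EUS G ≤ cA * Fintype.card V - cB * cnt G 2 - cC * cnt G 3 := by
  rw [← bound_form hG hn]; exact EUS_le hG hn

theorem small_case {n : ℕ} (hG : ChemUnicyclic G) (hc : Fintype.card V = n)
    (hn : n = 3 ∨ n = 4 ∨ n = 5 ∨ n = 6 ∨ n = 8) {a b c : ℕ}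
    (habc : (n = 3 ∧ a = 2 ∧ b = 2 ∧ c = 2) ∨ (n = 4 ∧ a = 3 ∧ b = 2 ∧ c = 2) ∨
      (n = 5 ∧ a = 4 ∧ b = 2 ∧ c = 2) ∨ (n = 6 ∧ a = 4 ∧ b = 3 ∧ c = 2) ∨
      (n = 8 ∧ a = 4 ∧ b = 4 ∧ c = 3)) :
    EUS G ≤ M n ∧ (EUS G = M n ↔ IsTri G a b c) := by
  have hn3 : 3 ≤ Fintype.card V := by omega
  obtain ⟨r1, r2⟩ := cnt_rel hG hn3
  have hk := core_ge hG hn3
  have hk' := core_card hG hn3
  have hle := EUS_le' hG hn3
  have hB := cB_pos
  have hC := cC_gt
  obtain ⟨a1, a2⟩ := s3; obtain ⟨b1, b2⟩ := s7; obtain ⟨c1, c2⟩ := s13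
  obtain ⟨d1, d2⟩ := s19; obtain ⟨e1, e2⟩ := s21; obtain ⟨f1, f2⟩ := s37
  have hA : cA < 5.3646 := by unfold cA; linarith
  -- tri case value
  have hM : IsTri G a b c → EUS G = M n := by
    intro h
    have h2 := tri_EUS hG.1 hn3 (by omega) (by omega) (by omega) h
    rcases habc with ⟨rfl, rfl, rfl, rfl⟩ | ⟨rfl, rfl, rfl, rfl⟩ | ⟨rfl, rfl, rfl, rfl⟩ |
      ⟨rfl, rfl, rfl, rfl⟩ | ⟨rfl, rfl, rfl, rfl⟩
    · rw [h2]; simp only [M, w22, w12, if_true, s12]; norm_num; ring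
    · rw [h2]; simp [M, w22, w12, w13, w32, s12]; ring
    · rw [h2]; simp [M, w22, w12, w14, w42, s12, s28]; ring
    · rw [h2]; simp [M, w12, w13, w14, w43, w32, w42, s28]; ring
    · rw [h2]; simp [M, w13, w14, w43, w44, s48]; ring
  suffices h : EUS G < M n ∨ IsTri G a b c by
    rcases h with h | h
    · refine ⟨h.le, ⟨fun h' => absurd h' h.ne, fun h' => absurd (hM h') h.ne⟩⟩
    · exact ⟨(hM h).le, ⟨fun _ => h, fun _ => hM h⟩⟩
  have hcn : (cnt G 2 : ℝ) = ((cnt G 2 : ℕ) : ℝ) := rfl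
  by_cases hk3 : (core G).card = 3
  · obtain ⟨a', b', c', ht, ha, hb, hc'', hcnt⟩ := tri_of_core hG hn3 hk3
    have q2 := hcnt 2 (by norm_num)
    have q3 := hcnt 3 (by norm_num)
    have q4 := hcnt 4 (by norm_num)
    obtain ⟨ha1, ha2⟩ := ha
    obtain ⟨hb1, hb2⟩ := hb
    obtain ⟨hc1, hc2⟩ := hc''
    rcases habc with ⟨rfl, rfl, rfl, rfl⟩ | ⟨rfl, rfl, rfl, rfl⟩ | ⟨rfl, rfl, rfl, rfl⟩ |
      ⟨rfl, rfl, rfl, rfl⟩ | ⟨rfl, rfl, rfl, rfl⟩
    all_goals
      interval_cases a' <;> interval_cases b' <;> interval_cases c' <;>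
      simp only [Nat.reduceEqDiff, if_true, if_false] at q2 q3 q4 <;>
      (first
        | (exfalso; omega)
        | exact Or.inr ht
        | exact Or.inr ht.swap12
        | exact Or.inr ht.swap23
        | exact Or.inr ht.swap12.swap23
        | exact Or.inr ht.swap23.swap12
        | exact Or.inr ht.swap12.swap23.swap12
        | (left
           rw [hc, q2, q3] at hle
           simp only [M, s12, s28, s48]
           norm_num at hle ⊢
           linarith))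
  · left
    have hk4 : 4 ≤ cnt G 2 + cnt G 3 + cnt G 4 := by omega
    rw [hc] at hle r1
    have h2 : (cB : ℝ) * cnt G 2 ≥ 1.7 * cnt G 2 :=
      mul_le_mul_of_nonneg_right hB.le (Nat.cast_nonneg _)
    have h3 : (cC : ℝ) * cnt G 3 ≥ 1.74 * cnt G 3 :=
      mul_le_mul_of_nonneg_right (by linarith) (Nat.cast_nonneg _)
    rcases habc with ⟨rfl, rfl, rfl, rfl⟩ | ⟨rfl, rfl, rfl, rfl⟩ | ⟨rfl, rfl, rfl, rfl⟩ |
      ⟨rfl, rfl, rfl, rfl⟩ | ⟨rfl, rfl, rfl, rfl⟩
    · exfalso; omega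
    · have : (4 : ℝ) ≤ cnt G 2 := by exact_mod_cast (by omega : 4 ≤ cnt G 2)
      have h0 : (0 : ℝ) ≤ cnt G 3 := Nat.cast_nonneg _
      simp only [M, s12, s28, s48]
      norm_num at hle ⊢
      linarith
    · have : (3 : ℝ) ≤ cnt G 2 := by exact_mod_cast (by omega : 3 ≤ cnt G 2)
      have h0 : (0 : ℝ) ≤ cnt G 3 := Nat.cast_nonneg _
      simp only [M, s12, s28, s48]
      norm_num at hle ⊢
      linarith
    · have : (3 : ℝ) ≤ (cnt G 2 : ℝ) + cnt G 3 := by
        exact_mod_cast (by omega : 3 ≤ cnt G 2 + cnt G 3)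
      simp only [M, s12, s28, s48]
      norm_num at hle ⊢
      linarith
    · have : (2 : ℝ) ≤ (cnt G 2 : ℝ) + cnt G 3 := by
        exact_mod_cast (by omega : 2 ≤ cnt G 2 + cnt G 3)
      simp only [M, s12, s28, s48]
      norm_num at hle ⊢
      linarith

end

end Pool.Agent.Work.MP_b3e27a_co
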